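import Mathlib

set_option autoImplicit false

/-!
The data of the counterexample: two finite sets of exponent vectors of degree `14` in four
variables and a triangular certificate.
-/

namespace Q48.WC

/-- Exponent vectors in four variables, as tuples. -/
abbrev Q := ℕ × ℕ × ℕ × ℕ

def T1 : List Q := [(0,1,7,6), (1,0,1,12), (1,5,4,4), (3,0,10,1), (3,1,7,3), (4,3,3,4), (6,6,1,1), (7,6,1,0), (11,1,2,0)]

def T2 : List Q := [(0,4,6,4), (0,7,4,3), (1,8,1,4), (2,0,4,8), (2,10,0,2), (3,3,1,7), (4,2,6,2), (4,8,2,0), (5,6,0,3), (6,2,6,0), (7,0,6,1), (7,1,4,2)]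

def cert : List (Bool × Q × Q) := [
  (false, (0,1,0,5), (0,0,7,1)),
  (false, (0,2,4,0), (1,3,0,4)),
  (false, (0,4,0,2), (1,1,4,2)),
  (false, (0,4,2,0), (1,1,2,4)),
  (false, (1,0,0,5), (0,0,1,7)),
  (false, (2,0,0,4), (2,3,3,0)),
  (false, (2,2,0,2), (2,1,3,2)),
  (false, (2,2,2,0), (2,1,1,4)),
  (false, (3,0,3,0), (0,1,4,3)),
  (false, (3,1,0,2), (1,2,3,2)),
  (false, (4,0,0,2), (0,3,3,2)),
  (false, (5,0,0,1), (1,6,1,0)),
  (true, (0,1,0,5), (3,2,1,2)),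
  (true, (0,3,2,1), (0,4,2,2)),
  (true, (1,0,2,3), (1,0,2,5)),
  (true, (1,2,2,1), (3,0,4,1)),
  (true, (1,3,2,0), (3,5,0,0)),
  (true, (2,0,1,3), (0,0,3,5)),
  (true, (2,1,0,3), (1,2,1,4)),
  (false, (0,3,1,2), (4,0,2,2)),
  (false, (0,3,3,0), (4,0,0,4)),
  (false, (1,1,2,2), (2,0,5,1)),
  (false, (1,2,1,2), (3,1,2,2)),
  (false, (1,4,0,1), (5,2,1,0)),
  (false, (2,4,0,0), (4,2,1,1)),
  (true, (1,0,5,0), (6,0,1,1)),
  (true, (1,1,3,1), (3,1,3,1)),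
  (true, (2,2,1,1), (1,1,0,6)),
  (true, (5,0,1,0), (1,2,5,0)),
  (false, (0,6,0,0), (7,0,1,0)),
  (false, (1,0,5,0), (2,1,2,3)),
  (false, (1,2,0,3), (0,3,4,1)),
  (false, (2,2,1,1), (4,4,0,0)),
  (false, (3,2,1,0), (3,4,0,1)),
  (true, (0,0,5,1), (0,4,1,3)),
  (true, (0,1,2,3), (0,6,2,0)),
  (true, (0,3,3,0), (0,1,3,4)),
  (true, (1,2,0,3), (0,6,1,1)),
  (false, (0,0,4,2), (1,5,0,2)),
  (false, (6,0,0,0), (5,1,2,0)),
  (true, (0,1,3,2), (4,1,3,0)),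
  (true, (1,1,4,0), (6,0,0,2)),
  (true, (2,1,3,0), (5,0,1,2)),
  (true, (3,0,1,2), (0,3,0,5)),
  (true, (4,1,0,1), (0,1,6,1)),
  (false, (0,0,1,5), (1,0,0,7)),
  (false, (0,2,0,4), (1,3,4,0)),
  (false, (3,0,1,2), (1,3,2,2)),
  (true, (2,3,1,0), (2,5,1,0)),
  (false, (0,2,2,2), (4,1,1,2)),
  (false, (4,1,0,1), (0,2,3,3)),
  (true, (0,5,1,0), (4,3,1,0)),
  (false, (2,3,0,1), (2,0,3,3)),
  (true, (0,0,1,5), (3,3,0,2)),
  (false, (1,1,4,0), (0,4,0,4)),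
  (true, (1,4,1,0), (3,4,1,0)),
  (false, (3,2,0,1), (1,1,3,3)),
  (false, (4,2,0,0), (2,4,1,1)),
  (false, (0,4,1,1), (6,2,0,0)),
  (false, (1,4,1,0), (5,2,0,1)),
  (false, (2,0,4,0), (1,0,6,1)),
  (false, (2,1,1,2), (2,2,2,2)),
  (true, (6,0,0,0), (0,2,6,0)),
  (true, (0,2,0,4), (3,1,1,3)),
  (false, (0,0,6,0), (0,1,1,6)),
  (false, (1,2,2,1), (0,3,2,3)),
  (false, (4,0,1,1), (2,6,0,0)),
  (true, (0,4,2,0), (0,0,4,4)),
  (true, (2,0,0,4), (1,3,1,3)),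
  (true, (3,0,0,3), (0,3,1,4)),
  (true, (3,2,0,1), (2,4,0,2)),
  (false, (0,2,3,1), (4,1,0,3)),
  (false, (1,2,3,0), (3,1,0,4)),
  (false, (4,0,2,0), (7,1,0,0)),
  (true, (0,1,5,0), (6,1,1,0)),
  (true, (1,5,0,0), (3,3,2,0)),
  (false, (0,5,0,1), (1,0,4,3)),
  (false, (1,5,0,0), (5,1,1,1)),
  (false, (2,1,3,0), (2,2,0,4)),
  (false, (5,0,1,0), (1,6,0,1)),
  (true, (1,0,0,5), (2,3,1,2)),
  (true, (1,1,1,3), (0,7,0,1)),
  (true, (1,4,0,1), (4,2,0,2)),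
  (true, (2,3,0,1), (1,0,1,6)),
  (true, (4,0,0,2), (3,1,4,0)),
  (false, (0,0,0,6), (0,1,7,0)),
  (false, (0,1,3,2), (1,4,1,2)),
  (false, (2,0,2,2), (1,1,5,1)),
  (false, (3,0,0,3), (1,3,3,1)),
  (true, (0,0,6,0), (7,0,0,1)),
  (true, (0,4,0,2), (0,0,6,2)),
  (true, (1,0,3,2), (3,2,3,0)),
  (true, (1,1,2,2), (6,0,2,0)),
  (true, (3,0,3,0), (4,0,3,1)),
  (true, (3,1,1,1), (0,2,0,6)),
  (true, (3,1,2,0), (1,7,0,0)),
  (false, (0,2,1,3), (4,1,2,1)),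
  (false, (0,3,0,3), (1,2,4,1)),
  (false, (1,1,0,4), (0,4,4,0)),
  (false, (3,1,1,1), (1,2,2,3)),
  (false, (5,1,0,0), (1,5,1,1)),
  (true, (0,0,2,4), (2,0,2,4)),
  (true, (0,1,4,1), (0,6,0,2)),
  (true, (0,2,3,1), (0,5,1,2)),
  (true, (3,0,2,1), (4,0,4,0)),
  (false, (0,0,3,3), (4,3,0,1)),
  (false, (0,3,2,1), (4,0,1,3)),
  (false, (1,0,3,2), (2,1,4,1)),
  (false, (2,3,1,0), (5,3,0,0)),
  (true, (0,3,0,3), (3,0,1,4)),
  (true, (1,3,0,2), (2,0,1,5)),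
  (true, (2,1,2,1), (5,0,2,1)),
  (true, (2,2,2,0), (2,0,4,2)),
  (true, (5,0,0,1), (2,0,6,0)),
  (false, (1,0,4,1), (0,5,0,3)),
  (false, (1,1,3,1), (3,2,0,3)),
  (false, (1,3,1,1), (3,0,2,3)),
  (false, (1,3,2,0), (0,2,2,4)),
  (false, (4,1,1,0), (2,5,0,1)),
  (true, (0,0,0,6), (3,3,1,1)),
  (true, (0,1,1,4), (0,3,5,0)),
  (true, (1,3,1,1), (2,0,0,6)),
  (true, (2,4,0,0), (2,4,2,0)),
  (true, (4,2,0,0), (1,4,0,3)),
  (true, (5,1,0,0), (1,1,6,0)),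
  (false, (0,1,4,1), (3,0,3,2)),
  (false, (0,1,5,0), (0,0,2,6)),
  (false, (1,3,0,2), (0,2,4,2)),
  (false, (2,0,1,3), (2,3,2,1)),
  (false, (3,3,0,0), (1,0,3,4)),
  (true, (0,0,4,2), (4,2,2,0)),
  (true, (0,2,2,2), (0,5,2,1)),
  (true, (0,4,1,1), (0,0,5,3)),
  (true, (0,5,0,1), (5,1,0,2)),
  (true, (0,6,0,0), (5,0,0,3)),
  (true, (1,2,3,0), (5,0,3,0)),
  (true, (2,0,2,2), (2,2,4,0)),
  (true, (2,0,3,1), (2,2,3,1)),
  (true, (2,0,4,0), (0,0,0,8)),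
  (true, (3,1,0,2), (0,2,1,5)),
  (true, (4,0,2,0), (0,8,0,0)),
  (false, (0,1,1,4), (1,4,3,0)),
  (false, (0,5,1,0), (6,1,0,1)),
  (false, (1,0,1,4), (0,5,3,0)),
  (false, (1,0,2,3), (2,1,5,0)),
  (false, (2,1,0,3), (1,0,7,0)),
  (false, (3,1,2,0), (8,0,0,0)),
  (true, (0,2,1,3), (0,2,5,1)),
  (true, (1,0,1,4), (2,3,0,3)),
  (true, (1,0,4,1), (3,2,2,1)),
  (true, (2,1,1,2), (1,2,0,5)),
  (true, (2,2,0,2), (1,1,1,5)),
  (true, (3,3,0,0), (1,5,2,0)),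
  (true, (4,0,1,1), (3,0,5,0)),
  (false, (0,0,2,4), (0,1,5,2)),
  (false, (0,0,5,1), (0,1,2,5)),
  (false, (0,1,2,3), (1,4,2,1)),
  (false, (1,1,1,3), (0,4,3,1)),
  (false, (3,0,2,1), (0,0,8,0)),
  (true, (0,0,3,3), (0,7,1,0)),
  (true, (0,3,1,2), (3,0,0,5)),
  (true, (1,1,0,4), (2,2,1,3)),
  (true, (1,2,1,2), (2,1,0,5)),
  (false, (2,1,2,1), (1,0,5,2)),
  (true, (3,2,1,0), (0,1,0,7))]

/-- Componentwise comparison. -/
def qle (a c : Q) : Bool :=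
  Nat.ble a.1 c.1 && Nat.ble a.2.1 c.2.1 && Nat.ble a.2.2.1 c.2.2.1 && Nat.ble a.2.2.2 c.2.2.2

/-- Componentwise subtraction. -/
def qsub (c a : Q) : Q := (c.1 - a.1, c.2.1 - a.2.1, c.2.2.1 - a.2.2.1, c.2.2.2 - a.2.2.2)

/-- Degree. -/
def qdeg (a : Q) : ℕ := a.1 + a.2.1 + a.2.2.1 + a.2.2.2

/-- Equality test. -/
def qeq (a c : Q) : Bool :=
  Nat.beq a.1 c.1 && Nat.beq a.2.1 c.2.1 && Nat.beq a.2.2.1 c.2.2.1 && Nat.beq a.2.2.2 c.2.2.2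

/-- Membership test. -/
def qmem (a : Q) : List Q → Bool
  | [] => false
  | c :: L => qeq a c || qmem a L

/-- Remove one occurrence. -/
def qerase (a : Q) : List Q → List Q
  | [] => []
  | c :: L => if qeq a c then L else c :: qerase a L

/-- The support of the contraction. -/
def qcon (T : List Q) (a : Q) : List Q := (T.filter (qle a)).map (fun c => qsub c a)

/-- One step of the certificate. -/
def okStep (known : List Q) (st : Bool × Q × Q) : Bool :=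
  qmem st.2.2 (qcon (bif st.1 then T2 else T1) st.2.1) &&
    (qerase st.2.2 (qcon (bif st.1 then T2 else T1) st.2.1)).all (fun x => qmem x known) &&
    Nat.beq (qdeg st.2.1) 6

/-- The whole certificate. -/
def check : List Q → List (Bool × Q × Q) → Bool
  | _, [] => true
  | known, st :: L => okStep known st && check (st.2.2 :: known) L

theorem check_cert : check [] cert = true := by decide +kernel

/-- All monomials of degree `8` occur in the certificate. -/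
theorem cert_complete : ((List.range 9).all fun i => (List.range 9).all fun j =>
    (List.range 9).all fun k => (bif Nat.ble (i + j + k) 8 then
      qmem (i, j, k, 8 - i - j - k) (cert.map fun st => st.2.2) else true)) = true := by
  decide +kernel

theorem deg_T1 : ∀ c ∈ T1, qdeg c = 14 := by decide +kernel

theorem deg_T2 : ∀ c ∈ T2, qdeg c = 14 := by decide +kernel

end Q48.WC
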