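import Mathlib

set_option autoImplicit false

/-!
Koszul complexes of commuting additive operators, one variable at a time.
-/

namespace Q48.WC

open Finset

section Basic

variable {M : Type*} [AddCommGroup M] {M' : Type*} [AddCommGroup M']

/-- The Koszul differential of a family of additive operators. -/
def kd {n : ℕ} (X : Fin n → M →+ M) (f : Finset (Fin n) → M) (J : Finset (Fin n)) : M :=
  ∑ b, if b ∈ J then 0 else (-1 : ℤ) ^ (J.filter (· < b)).card • X b (f (insert b J))

/-- The part of a chain on sets without `0`. -/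
def lo {n : ℕ} (f : Finset (Fin (n + 1)) → M) (J : Finset (Fin n)) : M :=
  f (J.map (Fin.succEmb n))

/-- The part of a chain on sets with `0`. -/
def hi {n : ℕ} (f : Finset (Fin (n + 1)) → M) (J : Finset (Fin n)) : M :=
  f (insert 0 (J.map (Fin.succEmb n)))

/-- The tail of a set. -/
def tl {n : ℕ} (J : Finset (Fin (n + 1))) : Finset (Fin n) := univ.filter (fun k => k.succ ∈ J)

/-- The chain with given parts. -/
def glue {n : ℕ} (f0 f1 : Finset (Fin n) → M) (J : Finset (Fin (n + 1))) : M :=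
  if (0 : Fin (n + 1)) ∈ J then f1 (tl J) else f0 (tl J)

theorem zero_notMem_map {n : ℕ} (J : Finset (Fin n)) :
    (0 : Fin (n + 1)) ∉ J.map (Fin.succEmb n) := by
  simp

theorem tl_map {n : ℕ} (J : Finset (Fin n)) : tl (J.map (Fin.succEmb n)) = J := by
  ext k; simp [tl]

theorem tl_insert {n : ℕ} (J : Finset (Fin n)) :
    tl (insert 0 (J.map (Fin.succEmb n))) = J := by
  ext k; simp [tl]

theorem eq_map {n : ℕ} (J : Finset (Fin (n + 1))) (h : (0 : Fin (n + 1)) ∉ J) :
    (tl J).map (Fin.succEmb n) = J := by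
  ext k
  refine Fin.cases ?_ (fun k => ?_) k
  · simp [h]
  · simp [tl]

theorem eq_insert {n : ℕ} (J : Finset (Fin (n + 1))) (h : (0 : Fin (n + 1)) ∈ J) :
    insert 0 ((tl J).map (Fin.succEmb n)) = J := by
  ext k
  refine Fin.cases ?_ (fun k => ?_) k
  · simp [h]
  · simp [tl]

omit [AddCommGroup M] in
theorem chain_ext {n : ℕ} {f g : Finset (Fin (n + 1)) → M} (h0 : ∀ J, lo f J = lo g J)
    (h1 : ∀ J, hi f J = hi g J) (J : Finset (Fin (n + 1))) : f J = g J := by
  by_cases h : (0 : Fin (n + 1)) ∈ J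
  · have := h1 (tl J)
    simpa [hi, eq_insert J h] using this
  · have := h0 (tl J)
    simpa [lo, eq_map J h] using this

omit [AddCommGroup M] in
theorem lo_glue {n : ℕ} (f0 f1 : Finset (Fin n) → M) (J : Finset (Fin n)) :
    lo (glue f0 f1) J = f0 J := by
  simp [lo, glue, tl_map]

omit [AddCommGroup M] in
theorem hi_glue {n : ℕ} (f0 f1 : Finset (Fin n) → M) (J : Finset (Fin n)) :
    hi (glue f0 f1) J = f1 J := by
  simp [hi, glue, tl_insert]

theorem card_filter_map {n : ℕ} (J : Finset (Fin n)) (k : Fin n) :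
    ((J.map (Fin.succEmb n)).filter (· < k.succ)).card = (J.filter (· < k)).card := by
  rw [Finset.filter_map, Finset.card_map]
  congr 1
  ext a
  simp only [Finset.mem_filter, Function.comp]
  exact and_congr_right fun _ => Fin.succ_lt_succ_iff

theorem lo_kd {n : ℕ} (X : Fin (n + 1) → M →+ M) (f : Finset (Fin (n + 1)) → M)
    (J : Finset (Fin n)) :
    lo (kd X f) J = X 0 (hi f J) + kd (fun k => X k.succ) (lo f) J := by
  unfold lo hi kd
  rw [Fin.sum_univ_succ]
  congr 1
  · rw [if_neg (zero_notMem_map J)]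
    have : (J.map (Fin.succEmb n)).filter (· < (0 : Fin (n + 1))) = ∅ := by
      ext a; simp
    rw [this]; simp
  · refine Finset.sum_congr rfl fun k _ => ?_
    rw [card_filter_map]
    have h1 : (k.succ ∈ J.map (Fin.succEmb n)) ↔ k ∈ J := by simp
    have h2 : insert k.succ (J.map (Fin.succEmb n)) = (insert k J).map (Fin.succEmb n) := by
      rw [Finset.map_insert]; rfl
    rw [h2]
    by_cases hk : k ∈ J
    · rw [if_pos hk, if_pos (h1.2 hk)]
    · rw [if_neg hk, if_neg (fun h => hk (h1.1 h))]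

theorem hi_kd {n : ℕ} (X : Fin (n + 1) → M →+ M) (f : Finset (Fin (n + 1)) → M)
    (J : Finset (Fin n)) :
    hi (kd X f) J = - kd (fun k => X k.succ) (hi f) J := by
  unfold hi kd
  rw [Fin.sum_univ_succ, ← Finset.sum_neg_distrib]
  rw [if_pos (Finset.mem_insert_self _ _), zero_add]
  refine Finset.sum_congr rfl fun k _ => ?_
  have h1 : (k.succ ∈ insert 0 (J.map (Fin.succEmb n))) ↔ k ∈ J := by simp
  have h2 : insert k.succ (insert 0 (J.map (Fin.succEmb n)))
      = insert 0 ((insert k J).map (Fin.succEmb n)) := by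
    rw [Finset.map_insert, Finset.insert_comm]; rfl
  have h3 : ((insert 0 (J.map (Fin.succEmb n))).filter (· < k.succ)).card
      = (J.filter (· < k)).card + 1 := by
    rw [Finset.filter_insert, if_pos (Fin.succ_pos k), Finset.card_insert_of_notMem, card_filter_map]
    simp
  rw [h2, h3]
  by_cases hk : k ∈ J
  · rw [if_pos hk, if_pos (h1.2 hk), neg_zero]
  · rw [if_neg hk, if_neg (fun h => hk (h1.1 h)), pow_succ]
    simp

theorem kd_map₂ {n : ℕ} (X : Fin n → M →+ M) (X' : Fin n → M' →+ M') (h h' : M →+ M')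
    (hc : ∀ k m, h' (X k m) = X' k (h m)) (f : Finset (Fin n) → M) (J : Finset (Fin n)) :
    h' (kd X f J) = kd X' (fun J => h (f J)) J := by
  unfold kd
  rw [map_sum]
  refine Finset.sum_congr rfl fun b _ => ?_
  split_ifs
  · simp
  · rw [map_zsmul, hc]

theorem kd_map {n : ℕ} (X : Fin n → M →+ M) (X' : Fin n → M' →+ M') (h : M →+ M')
    (hc : ∀ k m, h (X k m) = X' k (h m)) (f : Finset (Fin n) → M) (J : Finset (Fin n)) :
    h (kd X f J) = kd X' (fun J => h (f J)) J :=
  kd_map₂ X X' h h hc f J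

theorem kd_add {n : ℕ} (X : Fin n → M →+ M) (f g : Finset (Fin n) → M) (J : Finset (Fin n)) :
    kd X (fun J => f J + g J) J = kd X f J + kd X g J := by
  unfold kd
  rw [← Finset.sum_add_distrib]
  refine Finset.sum_congr rfl fun b _ => ?_
  split_ifs
  · simp
  · rw [map_add, smul_add]

theorem kd_neg {n : ℕ} (X : Fin n → M →+ M) (f : Finset (Fin n) → M) (J : Finset (Fin n)) :
    kd X (fun J => - f J) J = - kd X f J := by
  unfold kd
  rw [← Finset.sum_neg_distrib]
  refine Finset.sum_congr rfl fun b _ => ?_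
  split_ifs
  · simp
  · rw [map_neg, smul_neg]

theorem kd_sub {n : ℕ} (X : Fin n → M →+ M) (f g : Finset (Fin n) → M) (J : Finset (Fin n)) :
    kd X (fun J => f J - g J) J = kd X f J - kd X g J := by
  simp only [sub_eq_add_neg]
  rw [kd_add X f (fun J => - g J), kd_neg]

theorem kd_zero {n : ℕ} (X : Fin n → M →+ M) (J : Finset (Fin n)) :
    kd X (fun _ => (0 : M)) J = 0 := by
  unfold kd
  refine Finset.sum_eq_zero fun b _ => ?_
  split_ifs <;> simp

theorem kd_congr {n : ℕ} (X : Fin n → M →+ M) {f g : Finset (Fin n) → M} (h : ∀ J, f J = g J)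
    (J : Finset (Fin n)) : kd X f J = kd X g J := by
  have : f = g := funext h
  rw [this]

/-- Chains concentrated in homological degree `i`. -/
def Supp {n : ℕ} (f : Finset (Fin n) → M) (i : ℕ) : Prop := ∀ J, J.card ≠ i → f J = 0

theorem Supp.lo {n : ℕ} {f : Finset (Fin (n + 1)) → M} {i : ℕ} (h : Supp f i) :
    Supp (lo f) i := by
  intro J hJ
  exact h _ (by rw [Finset.card_map]; exact hJ)

theorem Supp.hi {n : ℕ} {f : Finset (Fin (n + 1)) → M} {i : ℕ} (h : Supp f (i + 1)) :
    Supp (hi f) i := by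
  intro J hJ
  apply h
  rw [Finset.card_insert_of_notMem (zero_notMem_map J), Finset.card_map]
  omega

theorem Supp.hi0 {n : ℕ} {f : Finset (Fin (n + 1)) → M} (h : Supp f 0) (J : Finset (Fin n)) :
    Q48.WC.hi f J = 0 := by
  apply h
  rw [Finset.card_insert_of_notMem (zero_notMem_map J), Finset.card_map]
  omega

theorem Supp.glue {n : ℕ} {f0 f1 : Finset (Fin n) → M} {i : ℕ} (h0 : Supp f0 (i + 1))
    (h1 : Supp f1 i) : Supp (glue f0 f1) (i + 1) := by
  intro J hJ
  unfold Q48.WC.glue
  split_ifs with h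
  · apply h1
    rw [← eq_insert J h, Finset.card_insert_of_notMem (zero_notMem_map _), Finset.card_map] at hJ
    omega
  · apply h0
    rw [← eq_map J h, Finset.card_map] at hJ
    exact hJ

/-- Exactness in homological degree `i` of the Koszul complex with values in the subgroup `N`. -/
def Ex {n : ℕ} (X : Fin n → M →+ M) (N : AddSubgroup M) (i : ℕ) : Prop :=
  ∀ f : Finset (Fin n) → M, (∀ J, f J ∈ N) → Supp f i → (∀ J, kd X f J = 0) →
    ∃ g : Finset (Fin n) → M, (∀ J, g J ∈ N) ∧ Supp g (i + 1) ∧ ∀ J, kd X g J = f J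

/-- Operators with left inverses: exactness in positive degrees. -/
theorem ex_left : ∀ (n : ℕ) (X s : Fin n → M →+ M) (_ : ∀ k l m, X k (X l m) = X l (X k m))
    (_ : ∀ k l m, k ≠ l → s k (X l m) = X l (s k m))
    (_ : ∀ k l m, s k (s l m) = s l (s k m)) (_ : ∀ k m, s k (X k m) = m)
    (N : AddSubgroup M) (_ : ∀ k, ∀ m ∈ N, X k m ∈ N) (_ : ∀ k, ∀ m ∈ N, s k m ∈ N) (i : ℕ),
    Ex X N (i + 1) := by
  intro n
  induction n with
  | zero =>
    intro X s _ _ _ _ N _ _ i f hN hs _
    refine ⟨fun _ => 0, fun _ => N.zero_mem, fun _ _ => rfl, fun J => ?_⟩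
    rw [kd_zero, hs J]
    have : J = ∅ := Subsingleton.elim _ _
    rw [this]; simp
  | succ n ih =>
    intro X s hXX hsX hss hsX1 N hXN hsN i f hN hs hc
    set X' : Fin n → M →+ M := fun k => X k.succ with hX'
    have hlo : ∀ J, X 0 (hi f J) + kd X' (lo f) J = 0 := fun J => by
      rw [← lo_kd]; exact hc _
    have hhi : ∀ J, kd X' (hi f) J = 0 := fun J => by
      have := hi_kd X f J
      have h2 : hi (kd X f) J = 0 := hc _
      rw [h2] at this
      exact neg_eq_zero.1 this.symm
    -- e m = m - X 0 (s 0 m)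
    let N' : AddSubgroup M :=
      { carrier := {m | m ∈ N ∧ s 0 m = 0}
        zero_mem' := ⟨N.zero_mem, map_zero _⟩
        add_mem' := fun {a b} ha hb => ⟨N.add_mem ha.1 hb.1, by rw [map_add, ha.2, hb.2, add_zero]⟩
        neg_mem' := fun {a} ha => ⟨N.neg_mem ha.1, by rw [map_neg, ha.2, neg_zero]⟩ }
    have hne : ∀ k : Fin n, (0 : Fin (n + 1)) ≠ k.succ := fun k => (Fin.succ_ne_zero k).symm
    have hex := ih X' (fun k => s k.succ) (fun k l m => hXX _ _ m)
      (fun k l m hkl => hsX _ _ m (fun h => hkl (Fin.succ_injective _ h)))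
      (fun k l m => hss _ _ m) (fun k m => hsX1 _ m) N'
      (fun k m hm => ⟨hXN _ m hm.1, by rw [hX']; simp only; rw [hsX 0 k.succ m (hne k), hm.2, map_zero]⟩)
      (fun k m hm => ⟨hsN _ m hm.1, by rw [hss, hm.2, map_zero]⟩) i
    obtain ⟨g0, hg0N, hg0s, hg0⟩ := hex (fun J => lo f J - X 0 (s 0 (lo f J)))
      (fun J => ⟨N.sub_mem (hN _) (hXN _ _ (hsN _ _ (hN _))), by
        rw [map_sub, hsX1, sub_self]⟩)
      (fun J hJ => by
        have : lo f J = 0 := hs.lo J hJ
        beta_reduce
        rw [this]; simp)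
      (fun J => by
        rw [kd_sub X' (lo f) (fun J => X 0 (s 0 (lo f J)))]
        have h1 : kd X' (fun J => X 0 (s 0 (lo f J))) J = X 0 (kd X' (fun J => s 0 (lo f J)) J) :=
          (kd_map X' X' (X 0) (fun k m => hXX _ _ _) (fun J => s 0 (lo f J)) J).symm
        have h2 : kd X' (fun J => s 0 (lo f J)) J = s 0 (kd X' (lo f) J) :=
          (kd_map X' X' (s 0) (fun k m => hsX _ _ _ (hne k)) (lo f) J).symm
        have h3 : kd X' (lo f) J = - X 0 (hi f J) := by
          have := hlo J
          exact (neg_eq_of_add_eq_zero_right this).symm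
        rw [h1, h2, h3, map_neg, hsX1, map_neg]
        simp)
    refine ⟨glue g0 (fun J => s 0 (lo f J)), ?_, ?_, ?_⟩
    · intro J
      unfold glue
      split_ifs
      · exact hsN _ _ (hN _)
      · exact (hg0N _).1
    · refine Supp.glue hg0s ?_
      intro J hJ
      have : lo f J = 0 := hs.lo J hJ
      beta_reduce
      rw [this, map_zero]
    · refine chain_ext (fun J => ?_) (fun J => ?_)
      · rw [lo_kd, hi_glue]
        have : kd X' (lo (glue g0 fun J => s 0 (lo f J))) J = kd X' g0 J :=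
          kd_congr X' (fun J => lo_glue _ _ J) J
        rw [this, hg0]
        abel
      · rw [hi_kd]
        have h0 : kd X' (hi (glue g0 fun J => s 0 (lo f J))) J = kd X' (fun J => s 0 (lo f J)) J :=
          kd_congr X' (fun J => hi_glue _ _ J) J
        rw [h0]
        have h2 : kd X' (fun J => s 0 (lo f J)) J = s 0 (kd X' (lo f) J) :=
          (kd_map X' X' (s 0) (fun k m => hsX _ _ _ (hne k)) (lo f) J).symm
        have h3 : kd X' (lo f) J = - X 0 (hi f J) := by
          have := hlo J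
          exact (neg_eq_of_add_eq_zero_right this).symm
        rw [h2, h3, map_neg, hsX1]
        simp

/-- Operators with right inverses: exactness below the top degree. -/
theorem ex_right : ∀ (n : ℕ) (X s : Fin n → M →+ M) (_ : ∀ k l m, X k (X l m) = X l (X k m))
    (_ : ∀ k l m, k ≠ l → s k (X l m) = X l (s k m))
    (_ : ∀ k l m, s k (s l m) = s l (s k m)) (_ : ∀ k m, X k (s k m) = m)
    (N : AddSubgroup M) (_ : ∀ k, ∀ m ∈ N, X k m ∈ N) (_ : ∀ k, ∀ m ∈ N, s k m ∈ N) (i : ℕ)
    (_ : i < n), Ex X N i := by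
  intro n
  induction n with
  | zero =>
    intro X s _ _ _ _ N _ _ i hi
    exact absurd hi (by omega)
  | succ n ih =>
    intro X s hXX hsX hss hXs1 N hXN hsN i hin f hN hs hc
    set X' : Fin n → M →+ M := fun k => X k.succ with hX'
    have hlo : ∀ J, X 0 (hi f J) + kd X' (lo f) J = 0 := fun J => by
      rw [← lo_kd]; exact hc _
    have hhi : ∀ J, kd X' (hi f) J = 0 := fun J => by
      have := hi_kd X f J
      have h2 : hi (kd X f) J = 0 := hc _
      rw [h2] at this
      exact neg_eq_zero.1 this.symm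
    have hne : ∀ k : Fin n, (0 : Fin (n + 1)) ≠ k.succ := fun k => (Fin.succ_ne_zero k).symm
    have h3 : ∀ J, kd X' (lo f) J = - X 0 (hi f J) := fun J => by
      have := hlo J
      exact (neg_eq_of_add_eq_zero_right this).symm
    -- find h with values in N ∩ ker X 0 and ∂ h = (1 - s X) hi f
    obtain ⟨h, hhN, hhs, hh⟩ : ∃ h : Finset (Fin n) → M, (∀ J, h J ∈ N ∧ X 0 (h J) = 0) ∧
        Supp h i ∧ ∀ J, kd X' h J = hi f J - s 0 (X 0 (hi f J)) := by
      cases i with
      | zero =>
        refine ⟨fun _ => 0, fun _ => ⟨N.zero_mem, map_zero _⟩, fun _ _ => rfl, fun J => ?_⟩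
        rw [kd_zero, hs.hi0 J]; simp
      | succ i =>
        let N' : AddSubgroup M :=
          { carrier := {m | m ∈ N ∧ X 0 m = 0}
            zero_mem' := ⟨N.zero_mem, map_zero _⟩
            add_mem' := fun {a b} ha hb => ⟨N.add_mem ha.1 hb.1, by rw [map_add, ha.2, hb.2, add_zero]⟩
            neg_mem' := fun {a} ha => ⟨N.neg_mem ha.1, by rw [map_neg, ha.2, neg_zero]⟩ }
        have hex := ih X' (fun k => s k.succ) (fun k l m => hXX _ _ m)
          (fun k l m hkl => hsX _ _ m (fun h => hkl (Fin.succ_injective _ h)))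
          (fun k l m => hss _ _ m) (fun k m => hXs1 _ m) N'
          (fun k m hm => ⟨hXN _ m hm.1, by rw [hX']; simp only; rw [hXX 0 k.succ m, hm.2, map_zero]⟩)
          (fun k m hm => ⟨hsN _ m hm.1, by rw [← hsX _ _ _ (hne k).symm, hm.2, map_zero]⟩) i (by omega)
        obtain ⟨h, hhN, hhs, hh⟩ := hex (fun J => hi f J - s 0 (X 0 (hi f J)))
          (fun J => ⟨N.sub_mem (hN _) (hsN _ _ (hXN _ _ (hN _))), by
            rw [map_sub, hXs1, sub_self]⟩)
          (fun J hJ => by
            have : hi f J = 0 := hs.hi J hJ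
            beta_reduce
            rw [this]; simp)
          (fun J => by
            rw [kd_sub X' (hi f) (fun J => s 0 (X 0 (hi f J)))]
            have h1 : kd X' (fun J => s 0 (X 0 (hi f J))) J
                = s 0 (kd X' (fun J => X 0 (hi f J)) J) :=
              (kd_map X' X' (s 0) (fun k m => hsX _ _ _ (hne k)) (fun J => X 0 (hi f J)) J).symm
            have h2 : kd X' (fun J => X 0 (hi f J)) J = X 0 (kd X' (hi f) J) :=
              (kd_map X' X' (X 0) (fun k m => hXX _ _ _) (hi f) J).symm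
            rw [h1, h2, hhi]; simp)
        exact ⟨h, hhN, hhs, hh⟩
    refine ⟨glue (fun _ => 0) (fun J => s 0 (lo f J) - h J), ?_, ?_, ?_⟩
    · intro J
      unfold glue
      split_ifs
      · exact N.sub_mem (hsN _ _ (hN _)) (hhN _).1
      · exact N.zero_mem
    · refine Supp.glue (fun _ _ => rfl) ?_
      intro J hJ
      have : lo f J = 0 := hs.lo J hJ
      beta_reduce
      rw [this, map_zero, hhs J hJ, sub_zero]
    · refine chain_ext (fun J => ?_) (fun J => ?_)
      · rw [lo_kd, hi_glue]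
        have : kd X' (lo (glue (fun _ => 0) fun J => s 0 (lo f J) - h J)) J
            = kd X' (fun _ => 0) J :=
          kd_congr X' (fun J => lo_glue _ _ J) J
        rw [this, kd_zero, map_sub, hXs1, (hhN J).2]
        abel
      · rw [hi_kd]
        have h0 : kd X' (hi (glue (fun _ => 0) fun J => s 0 (lo f J) - h J)) J
            = kd X' (fun J => s 0 (lo f J) - h J) J :=
          kd_congr X' (fun J => hi_glue _ _ J) J
        rw [h0, kd_sub X' (fun J => s 0 (lo f J)) h]
        have h2 : kd X' (fun J => s 0 (lo f J)) J = s 0 (kd X' (lo f) J) :=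
          (kd_map X' X' (s 0) (fun k m => hsX _ _ _ (hne k)) (lo f) J).symm
        rw [h2, h3, map_neg, hh]
        abel

/-- Adding one commuting operator. -/
theorem ex_cone {n : ℕ} (X : Fin (n + 1) → M →+ M)
    (hXX : ∀ (k : Fin n) m, X 0 (X k.succ m) = X k.succ (X 0 m)) (i : ℕ)
    (h0 : Ex (fun k => X k.succ) ⊤ i) (h1 : Ex (fun k => X k.succ) ⊤ (i + 1)) :
    Ex X ⊤ (i + 1) := by
  intro f hN hs hc
  set X' : Fin n → M →+ M := fun k => X k.succ with hX'
  have hlo : ∀ J, X 0 (hi f J) + kd X' (lo f) J = 0 := fun J => by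
    rw [← lo_kd]; exact hc _
  have hhi : ∀ J, kd X' (hi f) J = 0 := fun J => by
    have := hi_kd X f J
    have h2 : hi (kd X f) J = 0 := hc _
    rw [h2] at this
    exact neg_eq_zero.1 this.symm
  obtain ⟨g1, _, hg1s, hg1⟩ := h0 (hi f) (fun _ => trivial) hs.hi hhi
  obtain ⟨g0, _, hg0s, hg0⟩ := h1 (fun J => lo f J + X 0 (g1 J)) (fun _ => trivial)
    (fun J hJ => by beta_reduce; rw [hs.lo J hJ, hg1s J hJ]; simp)
    (fun J => by
      rw [kd_add X' (lo f) (fun J => X 0 (g1 J))]
      have h2 : kd X' (fun J => X 0 (g1 J)) J = X 0 (kd X' g1 J) :=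
        (kd_map X' X' (X 0) (fun k m => hXX _ _) g1 J).symm
      rw [h2, hg1, add_comm]
      exact hlo J)
  refine ⟨glue g0 (fun J => - g1 J), fun _ => trivial, ?_, ?_⟩
  · refine Supp.glue hg0s ?_
    intro J hJ
    beta_reduce
    rw [hg1s J hJ, neg_zero]
  · refine chain_ext (fun J => ?_) (fun J => ?_)
    · rw [lo_kd, hi_glue]
      have : kd X' (lo (glue g0 fun J => - g1 J)) J = kd X' g0 J :=
        kd_congr X' (fun J => lo_glue _ _ J) J
      rw [this, hg0, map_neg]
      abel
    · rw [hi_kd]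
      have : kd X' (hi (glue g0 fun J => - g1 J)) J = kd X' (fun J => - g1 J) J :=
        kd_congr X' (fun J => hi_glue _ _ J) J
      rw [this, kd_neg X' g1, hg1]
      abel

/-- Products. -/
theorem ex_prod {n : ℕ} (X : Fin n → M →+ M) (X' : Fin n → M' →+ M') (i : ℕ)
    (h : Ex X ⊤ i) (h' : Ex X' ⊤ i) :
    Ex (fun k => (X k).prodMap (X' k)) ⊤ i := by
  intro f _ hs hc
  have e1 : ∀ (f : Finset (Fin n) → M × M') J, (kd (fun k => (X k).prodMap (X' k)) f J).1
      = kd X (fun J => (f J).1) J := fun f J =>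
    kd_map (fun k => (X k).prodMap (X' k)) X (AddMonoidHom.fst M M') (fun k m => rfl) f J
  have e2 : ∀ (f : Finset (Fin n) → M × M') J, (kd (fun k => (X k).prodMap (X' k)) f J).2
      = kd X' (fun J => (f J).2) J := fun f J =>
    kd_map (fun k => (X k).prodMap (X' k)) X' (AddMonoidHom.snd M M') (fun k m => rfl) f J
  obtain ⟨g, _, hgs, hg⟩ := h (fun J => (f J).1) (fun _ => trivial)
    (fun J hJ => by beta_reduce; rw [hs J hJ]; rfl) (fun J => by rw [← e1, hc]; rfl)
  obtain ⟨g', _, hgs', hg'⟩ := h' (fun J => (f J).2) (fun _ => trivial)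
    (fun J hJ => by beta_reduce; rw [hs J hJ]; rfl) (fun J => by rw [← e2, hc]; rfl)
  refine ⟨fun J => (g J, g' J), fun _ => trivial, fun J hJ => ?_, fun J => ?_⟩
  · beta_reduce; rw [hgs J hJ, hgs' J hJ]; rfl
  · refine Prod.ext ?_ ?_
    · rw [e1]; exact hg J
    · rw [e2]; exact hg' J

end Basic

end Q48.WC
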