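import Mathlib
import Pool.Agent.Q48.WC.Koszul
import Pool.Agent.Q48.WC.Cert

set_option autoImplicit false

/-!
The module `P` in which `S / I` embeds, and the exactness of its Koszul complex.
-/

namespace Q48.WC

open Finset
open scoped Classical

/-- Exponent vectors in four variables. -/
abbrev A := Fin 4 → ℕ

/-- The exponent vector of a tuple. -/
def vec (q : Q) : A := ![q.1, q.2.1, q.2.2.1, q.2.2.2]

/-- The exponent vector of the `k`-th variable. -/
abbrev e1 (k : Fin 4) : A := Pi.single k 1

/-- Degree of an exponent vector. -/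
def deg (a : A) : ℕ := ∑ i, a i

theorem deg_add (a b : A) : deg (a + b) = deg a + deg b := by
  simp [deg, Finset.sum_add_distrib]

theorem deg_single (k : Fin 4) : deg (e1 k) = 1 := by
  simp [deg]

theorem deg_vec (q : Q) : deg (vec q) = qdeg q := by
  simp [deg, vec, qdeg, Fin.sum_univ_four]

theorem deg_sub {a b : A} (h : b ≤ a) : deg (a - b) + deg b = deg a := by
  rw [← deg_add, tsub_add_cancel_of_le h]

theorem add_single_sub (a : A) (k : Fin 4) : a + e1 k - e1 k = a :=
  add_tsub_cancel_right _ _

theorem sub_single_add {a : A} {k : Fin 4} (h : a k ≠ 0) :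
    a - e1 k + e1 k = a := by
  apply tsub_add_cancel_of_le
  intro i
  by_cases hi : i = k
  · subst hi; simp; omega
  · simp [Pi.single_eq_of_ne hi]

noncomputable section Ops

variable (K : Type*) [Field K]

/-- Multiplication by the `k`-th variable on power series. -/
def up (k : Fin 4) : (A → K) →ₗ[K] (A → K) where
  toFun p a := if a k = 0 then 0 else p (a - e1 k)
  map_add' p q := by ext a; simp only [Pi.add_apply]; split_ifs <;> simp
  map_smul' c p := by ext a; simp

/-- Contraction by the `k`-th variable. -/
def dn (k : Fin 4) : (A → K) →ₗ[K] (A → K) where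
  toFun p a := p (a + e1 k)
  map_add' p q := by ext a; simp
  map_smul' c p := by ext a; simp

variable {K}

theorem up_apply (k : Fin 4) (p : A → K) (a : A) :
    up K k p a = if a k = 0 then 0 else p (a - e1 k) := rfl

theorem dn_apply (k : Fin 4) (p : A → K) (a : A) : dn K k p a = p (a + e1 k) := rfl

theorem dn_up (k : Fin 4) (p : A → K) : dn K k (up K k p) = p := by
  ext a
  rw [dn_apply, up_apply, if_neg (by simp), add_single_sub]

theorem up_up (k l : Fin 4) (p : A → K) : up K k (up K l p) = up K l (up K k p) := by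
  ext a
  simp only [up_apply]
  by_cases hkl : k = l
  · subst hkl; rfl
  · have h1 : (a - e1 k) l = a l := by
      simp [Pi.single_eq_of_ne (Ne.symm hkl)]
    have h2 : (a - e1 l) k = a k := by
      simp [Pi.single_eq_of_ne hkl]
    rw [h1, h2, tsub_right_comm]
    split_ifs <;> rfl

theorem dn_dn (k l : Fin 4) (p : A → K) : dn K k (dn K l p) = dn K l (dn K k p) := by
  ext a
  simp only [dn_apply]
  rw [add_right_comm]

theorem dn_up_ne {k l : Fin 4} (hkl : k ≠ l) (p : A → K) :
    dn K k (up K l p) = up K l (dn K k p) := by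
  ext a
  simp only [dn_apply, up_apply]
  have h1 : (a + e1 k) l = a l := by
    simp [Pi.single_eq_of_ne (Ne.symm hkl)]
  rw [h1]
  split_ifs with h
  · rfl
  · congr 1
    rw [tsub_add_eq_add_tsub]
    intro i
    by_cases hi : i = l
    · subst hi; simp; omega
    · simp [Pi.single_eq_of_ne hi]

variable (K)

/-- Contraction of `∑_{c ∈ T} Z^[c]` by the power series `p`. -/
def act (T : List Q) : (A → K) →ₗ[K] (A → K) where
  toFun p b := (T.map fun c => if b ≤ vec c then p (vec c - b) else 0).sum
  map_add' p q := by
    ext b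
    change (T.map fun c => if b ≤ vec c then p (vec c - b) + q (vec c - b) else (0 : K)).sum
      = (T.map fun c => if b ≤ vec c then p (vec c - b) else (0 : K)).sum
        + (T.map fun c => if b ≤ vec c then q (vec c - b) else (0 : K)).sum
    rw [← List.sum_map_add]
    congr 1
    refine List.map_congr_left fun c _ => ?_
    split_ifs
    · rfl
    · exact (add_zero (0 : K)).symm
  map_smul' r p := by
    ext b
    change (T.map fun c => if b ≤ vec c then r * p (vec c - b) else (0 : K)).sum
      = r * (T.map fun c => if b ≤ vec c then p (vec c - b) else (0 : K)).sum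
    rw [← List.sum_map_mul_left]
    congr 1
    refine List.map_congr_left fun c _ => ?_
    split_ifs
    · rfl
    · exact (mul_zero r).symm

variable {K}

theorem act_apply (T : List Q) (p : A → K) (b : A) :
    act K T p b = (T.map fun c => if b ≤ vec c then p (vec c - b) else 0).sum := rfl

theorem act_up (T : List Q) (k : Fin 4) (p : A → K) :
    act K T (up K k p) = dn K k (act K T p) := by
  ext b
  rw [dn_apply, act_apply, act_apply]
  congr 1
  refine List.map_congr_left fun c _ => ?_
  rw [up_apply]
  by_cases h : b ≤ vec c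
  · rw [if_pos h]
    by_cases h2 : (vec c - b) k = 0
    · rw [if_pos h2, if_neg]
      intro h3
      have := h3 k
      simp at this h2
      omega
    · rw [if_neg h2, if_pos, tsub_add_eq_tsub_tsub]
      intro i
      by_cases hi : i = k
      · subst hi
        simp at h2 ⊢
        omega
      · simpa [Pi.single_eq_of_ne hi] using h i
  · rw [if_neg h, if_neg]
    intro h3
    exact h (le_trans (le_add_of_nonneg_right (zero_le (a := _))) h3)

/-- Power series homogeneous of degree `d`. -/
def Dg (K : Type*) [Field K] (d : ℕ) : Submodule K (A → K) where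
  carrier := {p | ∀ a, deg a ≠ d → p a = 0}
  zero_mem' := fun _ _ => rfl
  add_mem' := fun {p q} hp hq a ha => by rw [Pi.add_apply, hp a ha, hq a ha, add_zero]
  smul_mem' := fun c p hp a ha => by rw [Pi.smul_apply, hp a ha, smul_zero]

theorem up_mem {d : ℕ} {p : A → K} (hp : p ∈ Dg K d) (k : Fin 4) : up K k p ∈ Dg K (d + 1) := by
  intro a ha
  rw [up_apply]
  split_ifs with h
  · rfl
  · apply hp
    have := congrArg deg (sub_single_add h)
    rw [deg_add, deg_single] at this
    omega

/-- The operator of an additional variable on `P`. -/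
def ox (K : Type*) [Field K] (T : List Q) : ((A → K) × (A → K)) →+ ((A → K) × (A → K)) where
  toFun v := (0, act K T v.1)
  map_zero' := by simp
  map_add' v w := by simp

/-- The operators of `z_1, …, z_4` on `P`. -/
def oz (K : Type*) [Field K] (k : Fin 4) : ((A → K) × (A → K)) →+ ((A → K) × (A → K)) :=
  (up K k).toAddMonoidHom.prodMap (dn K k).toAddMonoidHom

/-- The operators of `y, z_1, …, z_4` on `P`. -/
def oyz (K : Type*) [Field K] : Fin 5 → (((A → K) × (A → K)) →+ ((A → K) × (A → K))) :=
  Fin.cons (ox K T2) (oz K)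

/-- The operators of `x, y, z_1, …, z_4` on `P`. -/
def op (K : Type*) [Field K] : Fin 6 → (((A → K) × (A → K)) →+ ((A → K) × (A → K))) :=
  Fin.cons (ox K T1) (oyz K)

theorem ox_ox (T T' : List Q) (v : (A → K) × (A → K)) :
    ox K T (ox K T' v) = ox K T' (ox K T v) := by
  simp [ox]

theorem ox_oz (T : List Q) (k : Fin 4) (v : (A → K) × (A → K)) :
    ox K T (oz K k v) = oz K k (ox K T v) := by
  refine Prod.ext ?_ ?_
  · change (0 : A → K) = up K k 0
    rw [map_zero]
  · change act K T (up K k v.1) = dn K k (act K T v.1)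
    exact act_up T k v.1

theorem ex_oz (i : ℕ) (hi : i + 1 < 4) : Ex (oz K) ⊤ (i + 1) := by
  refine ex_prod (fun k => (up K k).toAddMonoidHom) (fun k => (dn K k).toAddMonoidHom) (i + 1) ?_ ?_
  · exact ex_left 4 _ (fun k => (dn K k).toAddMonoidHom) (fun k l m => up_up k l m)
      (fun k l m hkl => dn_up_ne hkl m) (fun k l m => dn_dn k l m) (fun k m => dn_up k m) ⊤
      (fun _ _ _ => trivial) (fun _ _ _ => trivial) i
  · exact ex_right 4 _ (fun k => (up K k).toAddMonoidHom) (fun k l m => dn_dn k l m)
      (fun k l m hkl => (dn_up_ne hkl.symm m).symm) (fun k l m => up_up k l m)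
      (fun k m => dn_up k m) ⊤ (fun _ _ _ => trivial) (fun _ _ _ => trivial) (i + 1) hi

theorem ex_oyz (i : ℕ) (hi : i + 2 < 4) : Ex (oyz K) ⊤ (i + 2) :=
  ex_cone (oyz K) (fun k m => ox_oz T2 k m) (i + 1) (ex_oz i (by omega)) (ex_oz (i + 1) hi)

theorem ex_op : Ex (op K) ⊤ 3 := by
  refine ex_cone (op K) (fun k m => ?_) 2 (ex_oyz 0 (by omega)) (ex_oyz 1 (by omega))
  refine Fin.cases ?_ (fun k => ?_) k
  · exact ox_ox T1 T2 m
  · exact ox_oz T1 k m

end Ops

end Q48.WC
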