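import Mathlib
import Pool.Agent.Q48.WC.Model

set_option autoImplicit false

/-!
The two contractions span everything in degrees at most `8`.
-/

namespace Q48.WC

open Finset
open scoped Classical

noncomputable section

variable {K : Type*} [Field K]

/-- The delta function. -/
def dl (K : Type*) [Field K] (a : A) : A → K := fun b => if b = a then 1 else 0

theorem qeq_iff (a c : Q) : qeq a c = true ↔ a = c := by
  obtain ⟨a1, a2, a3, a4⟩ := a
  obtain ⟨c1, c2, c3, c4⟩ := c
  simp only [qeq, Bool.and_eq_true, Nat.beq_eq, Prod.mk.injEq]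
  tauto

theorem qle_iff (a c : Q) : qle a c = true ↔ vec a ≤ vec c := by
  obtain ⟨a1, a2, a3, a4⟩ := a
  obtain ⟨c1, c2, c3, c4⟩ := c
  simp only [qle, Bool.and_eq_true, Nat.ble_eq, vec, Pi.le_def, Fin.forall_fin_succ]
  simp
  tauto

theorem vec_qsub (c a : Q) : vec (qsub c a) = vec c - vec a := by
  ext i
  fin_cases i <;> rfl

theorem qmem_iff (a : Q) (L : List Q) : qmem a L = true ↔ a ∈ L := by
  induction L with
  | nil => simp [qmem]
  | cons c L ih => simp [qmem, qeq_iff, ih]

theorem sum_qerase {R : Type*} [AddCommMonoid R] (g : Q → R) (a : Q) (L : List Q)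
    (h : qmem a L = true) : (L.map g).sum = g a + ((qerase a L).map g).sum := by
  induction L with
  | nil => simp [qmem] at h
  | cons c L ih =>
    simp only [qerase]
    by_cases hc : qeq a c = true
    · rw [if_pos hc]
      rw [qeq_iff] at hc
      subst hc
      simp
    · rw [if_neg hc]
      have h2 : qmem a L = true := by
        simp only [qmem, Bool.or_eq_true] at h
        rcases h with h | h
        · exact absurd h hc
        · exact h
      simp only [List.map_cons, List.sum_cons]
      rw [ih h2, add_left_comm]

theorem act_dl (T : List Q) (a : Q) :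
    act K T (dl K (vec a)) = ((qcon T a).map fun c => dl K (vec c)).sum := by
  induction T with
  | nil => ext b; simp [act_apply, qcon]
  | cons c T ih =>
    have h1 : act K (c :: T) (dl K (vec a))
        = (fun b => if b ≤ vec c then dl K (vec a) (vec c - b) else 0)
          + act K T (dl K (vec a)) := by
      ext b
      simp [act_apply]
    rw [h1, ih]
    have h2 : qcon (c :: T) a = if qle a c = true then qsub c a :: qcon T a else qcon T a := by
      simp only [qcon, List.filter_cons]
      split_ifs <;> simp
    rw [h2]
    split_ifs with hac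
    · rw [List.map_cons, List.sum_cons]
      congr 1
      rw [qle_iff] at hac
      ext b
      rw [vec_qsub]
      unfold dl
      by_cases hb : b ≤ vec c
      · rw [if_pos hb]
        have : (vec c - b = vec a) ↔ (b = vec c - vec a) := by
          constructor
          · intro h
            rw [← h]
            exact (tsub_tsub_cancel_of_le hb).symm
          · intro h
            rw [h]
            exact tsub_tsub_cancel_of_le hac
        simp only [this]
      · rw [if_neg hb, if_neg]
        intro h
        exact hb (h ▸ tsub_le_self)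
    · have : (fun b => if b ≤ vec c then dl K (vec a) (vec c - b) else 0) = (0 : A → K) := by
        ext b
        rw [qle_iff] at hac
        simp only [dl, Pi.zero_apply]
        split_ifs with h3 h4
        · exact absurd (h4 ▸ tsub_le_self) hac
        · rfl
        · rfl
      rw [this, zero_add]

/-- The span of the two contractions. -/
def W (K : Type*) [Field K] (e : ℕ) : Submodule K (A → K) :=
  (Dg K e).map (act K T1) ⊔ (Dg K e).map (act K T2)

theorem act_mem_W (b : Bool) {e : ℕ} {p : A → K} (hp : p ∈ Dg K e) :
    act K (bif b then T2 else T1) p ∈ W K e := by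
  cases b
  · exact Submodule.mem_sup_left (Submodule.mem_map_of_mem hp)
  · exact Submodule.mem_sup_right (Submodule.mem_map_of_mem hp)

theorem dl_mem (a : A) : dl K a ∈ Dg K (deg a) := by
  intro b hb
  unfold dl
  rw [if_neg]
  intro h
  exact hb (by rw [h])

theorem check_sound (steps : List (Bool × Q × Q)) : ∀ known : List Q,
    (∀ x ∈ known, dl K (vec x) ∈ W K 6) → check known steps = true →
    ∀ x ∈ steps.map (fun st => st.2.2), dl K (vec x) ∈ W K 6 := by
  induction steps with
  | nil => intro known _ _ x hx; simp at hx
  | cons st L ih =>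
    intro known hk hc
    simp only [check, Bool.and_eq_true] at hc
    obtain ⟨hst, hL⟩ := hc
    have hb : dl K (vec st.2.2) ∈ W K 6 := by
      simp only [okStep, Bool.and_eq_true, Nat.beq_eq] at hst
      obtain ⟨⟨h1, h2⟩, h3⟩ := hst
      have h4 : act K (bif st.1 then T2 else T1) (dl K (vec st.2.1)) ∈ W K 6 := by
        apply act_mem_W
        have := dl_mem (K := K) (vec st.2.1)
        rw [deg_vec, h3] at this
        exact this
      rw [act_dl, sum_qerase _ _ _ h1] at h4
      have h5 : ((qerase st.2.2 (qcon (bif st.1 then T2 else T1) st.2.1)).map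
          fun c => dl K (vec c)).sum ∈ W K 6 := by
        apply list_sum_mem
        intro x hx
        rw [List.mem_map] at hx
        obtain ⟨y, hy, rfl⟩ := hx
        rw [List.all_eq_true] at h2
        exact hk y ((qmem_iff _ _).1 (h2 y hy))
      exact (Submodule.add_mem_iff_left _ h5).1 h4
    have := ih (st.2.2 :: known) (by
      intro x hx
      rcases List.mem_cons.1 hx with rfl | hx
      · exact hb
      · exact hk x hx) hL
    intro x hx
    rw [List.map_cons, List.mem_cons] at hx
    rcases hx with rfl | hx
    · exact hb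
    · exact this x hx

theorem dl_mem_W8 (a : A) (ha : deg a = 8) : dl K a ∈ W K 6 := by
  have h0 := check_sound (K := K) cert [] (by simp) check_cert
  have h1 := cert_complete
  have hsum : a 0 + a 1 + a 2 + a 3 = 8 := by
    rw [← ha]; simp [deg, Fin.sum_univ_four]
  rw [List.all_eq_true] at h1
  have h2 := h1 (a 0) (List.mem_range.2 (by omega))
  rw [List.all_eq_true] at h2
  have h3 := h2 (a 1) (List.mem_range.2 (by omega))
  rw [List.all_eq_true] at h3
  have h4 := h3 (a 2) (List.mem_range.2 (by omega))
  have h5 : Nat.ble (a 0 + a 1 + a 2) 8 = true := by rw [Nat.ble_eq]; omega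
  rw [h5, cond_true, qmem_iff] at h4
  have h6 : (a 0, a 1, a 2, 8 - a 0 - a 1 - a 2) = ((a 0, a 1, a 2, a 3) : Q) := by
    have : 8 - a 0 - a 1 - a 2 = a 3 := by omega
    rw [this]
  rw [h6] at h4
  have h7 : vec (a 0, a 1, a 2, a 3) = a := by
    ext i
    fin_cases i <;> rfl
  have := h0 _ h4
  rwa [h7] at this

theorem dn_mem_W {e : ℕ} {φ : A → K} (h : φ ∈ W K e) (k : Fin 4) : dn K k φ ∈ W K (e + 1) := by
  obtain ⟨u, hu, v, hv, rfl⟩ := Submodule.mem_sup.1 h
  obtain ⟨p, hp, rfl⟩ := hu
  obtain ⟨q, hq, rfl⟩ := hv
  rw [map_add, ← act_up, ← act_up]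
  exact Submodule.add_mem _ (Submodule.mem_sup_left (Submodule.mem_map_of_mem (up_mem hp k)))
    (Submodule.mem_sup_right (Submodule.mem_map_of_mem (up_mem hq k)))

theorem dl_mem_W (j : ℕ) : ∀ a : A, deg a + j = 8 → dl K a ∈ W K (6 + j) := by
  induction j with
  | zero => intro a ha; exact dl_mem_W8 a ha
  | succ j ih =>
    intro a ha
    have h1 := ih (a + e1 0) (by rw [deg_add, deg_single]; omega)
    have h2 := dn_mem_W h1 0
    have h3 : dn K 0 (dl K (a + e1 0)) = dl K a := by
      ext b
      rw [dn_apply]
      unfold dl
      simp only [add_left_inj]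
    rw [h3] at h2
    exact h2

theorem mem_W (t : ℕ) (ht : t ≤ 8) (φ : A → K) (hφ : φ ∈ Dg K t) : φ ∈ W K (14 - t) := by
  have h1 : φ = ∑ b ∈ Finset.piAntidiag (Finset.univ : Finset (Fin 4)) t, φ b • dl K b := by
    ext a
    rw [Finset.sum_apply]
    by_cases ha : deg a = t
    · rw [Finset.sum_eq_single a]
      · simp [dl]
      · intro b _ hb
        simp [dl, Ne.symm hb]
      · intro h
        exfalso
        apply h
        rw [Finset.mem_piAntidiag]
        exact ⟨ha, fun _ _ => Finset.mem_univ _⟩
    · rw [hφ a ha, Finset.sum_eq_zero]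
      intro b hb
      rw [Finset.mem_piAntidiag] at hb
      have : a ≠ b := fun h => ha (by rw [h]; exact hb.1)
      simp [dl, this]
  rw [h1]
  refine Submodule.sum_mem _ fun b hb => Submodule.smul_mem _ _ ?_
  rw [Finset.mem_piAntidiag] at hb
  have h2 := dl_mem_W (K := K) (8 - t) b (by
    have : deg b = t := hb.1
    omega)
  have h3 : 6 + (8 - t) = 14 - t := by omega
  rwa [h3] at h2

end

end Q48.WC
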