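import Mathlib
import Pool.Agent.Q48.WC.Span

set_option autoImplicit false

/-!
The map from the polynomial ring in six variables and its kernel.
-/

namespace Q48.WC

open Finset MvPolynomial
open scoped Classical

noncomputable section

variable {K : Type*} [Field K]

/-- The exponent vector of `x^u y^v z^a`. -/
def E (u v : ℕ) (a : A) : Fin 6 →₀ ℕ :=
  Finsupp.equivFunOnFinite.symm (Fin.cons u (Fin.cons v a : Fin 5 → ℕ) : Fin 6 → ℕ)

theorem E_zero (u v : ℕ) (a : A) : E u v a 0 = u := rfl

theorem E_one (u v : ℕ) (a : A) : E u v a 1 = v := rfl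

theorem E_succ (u v : ℕ) (a : A) (k : Fin 4) : E u v a k.succ.succ = a k := rfl

theorem E_ext {m m' : Fin 6 →₀ ℕ} (h0 : m 0 = m' 0) (h1 : m 1 = m' 1)
    (h : ∀ k : Fin 4, m k.succ.succ = m' k.succ.succ) : m = m' := by
  ext i
  refine Fin.cases h0 (fun i => ?_) i
  refine Fin.cases h1 (fun i => ?_) i
  exact h i

theorem E_inj {u v u' v' : ℕ} {a a' : A} (h : E u v a = E u' v' a') :
    u = u' ∧ v = v' ∧ a = a' := by
  refine ⟨?_, ?_, ?_⟩
  · rw [← E_zero u v a, h, E_zero]
  · rw [← E_one u v a, h, E_one]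
  · ext k
    rw [← E_succ u v a k, h, E_succ]

theorem degree_E (u v : ℕ) (a : A) : (E u v a).degree = u + v + deg a := by
  rw [Finsupp.degree_eq_sum, Fin.sum_univ_succ, Fin.sum_univ_succ, ← add_assoc]
  rfl

theorem coeff_X0 (f : MvPolynomial (Fin 6) K) (u v : ℕ) (a : A) :
    coeff (E u v a) (X 0 * f) = if u = 0 then 0 else coeff (E (u - 1) v a) f := by
  rw [coeff_X_mul']
  have h1 : (0 : Fin 6) ∈ (E u v a).support ↔ ¬ u = 0 := by
    rw [Finsupp.mem_support_iff, E_zero]
  by_cases hu : u = 0
  · rw [if_pos hu, if_neg (by rw [h1]; simpa using hu)]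
  · rw [if_neg hu, if_pos (h1.2 hu)]
    congr 1
    refine E_ext ?_ ?_ (fun k => ?_)
    · simp [E_zero]
    · rw [Finsupp.tsub_apply, E_one, E_one, Finsupp.single_apply, if_neg (by decide)]; rfl
    · rw [Finsupp.tsub_apply, E_succ, E_succ, Finsupp.single_apply,
        if_neg (Fin.succ_ne_zero _).symm]; rfl

theorem coeff_X1 (f : MvPolynomial (Fin 6) K) (u v : ℕ) (a : A) :
    coeff (E u v a) (X 1 * f) = if v = 0 then 0 else coeff (E u (v - 1) a) f := by
  rw [coeff_X_mul']
  have h1 : (1 : Fin 6) ∈ (E u v a).support ↔ ¬ v = 0 := by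
    rw [Finsupp.mem_support_iff, E_one]
  by_cases hu : v = 0
  · rw [if_pos hu, if_neg (by rw [h1]; simpa using hu)]
  · rw [if_neg hu, if_pos (h1.2 hu)]
    congr 1
    refine E_ext ?_ ?_ (fun k => ?_)
    · rw [Finsupp.tsub_apply, E_zero, E_zero, Finsupp.single_apply, if_neg (by decide)]; rfl
    · simp [E_one]
    · rw [Finsupp.tsub_apply, E_succ, E_succ, Finsupp.single_apply, if_neg]
      · rfl
      · intro h
        exact Fin.succ_ne_zero k (Fin.succ_injective _ h.symm)

theorem coeff_Xz (f : MvPolynomial (Fin 6) K) (u v : ℕ) (a : A) (k : Fin 4) :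
    coeff (E u v a) (X k.succ.succ * f) = if a k = 0 then 0 else coeff (E u v (a - e1 k)) f := by
  rw [coeff_X_mul']
  have h1 : k.succ.succ ∈ (E u v a).support ↔ ¬ a k = 0 := by
    rw [Finsupp.mem_support_iff, E_succ]
  by_cases hu : a k = 0
  · rw [if_pos hu, if_neg (by rw [h1]; simpa using hu)]
  · rw [if_neg hu, if_pos (h1.2 hu)]
    congr 1
    refine E_ext ?_ ?_ (fun l => ?_)
    · rw [Finsupp.tsub_apply, E_zero, E_zero, Finsupp.single_apply,
        if_neg (Fin.succ_ne_zero _)]; rfl
    · rw [Finsupp.tsub_apply, E_one, E_one, Finsupp.single_apply, if_neg]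
      · rfl
      · intro h
        exact Fin.succ_ne_zero k (Fin.succ_injective _ h)
    · rw [Finsupp.tsub_apply, E_succ, E_succ, Finsupp.single_apply, Pi.sub_apply]
      by_cases hkl : k = l
      · subst hkl; simp
      · have : e1 k l = 0 := Pi.single_eq_of_ne (fun h => hkl h.symm) 1
        rw [if_neg (fun h => hkl (Fin.succ_injective _ (Fin.succ_injective _ h))), this]

/-- The coefficient power series of `x^u y^v`. -/
def cf (u v : ℕ) : MvPolynomial (Fin 6) K →ₗ[K] (A → K) where
  toFun f a := coeff (E u v a) f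
  map_add' f g := by ext a; simp
  map_smul' c f := by ext a; simp

theorem cf_apply (u v : ℕ) (f : MvPolynomial (Fin 6) K) (a : A) :
    cf u v f a = coeff (E u v a) f := rfl

/-- The map to `P`. -/
def Phi (K : Type*) [Field K] : MvPolynomial (Fin 6) K →ₗ[K] ((A → K) × (A → K)) :=
  (cf 0 0).prod ((act K T1).comp (cf 1 0) + (act K T2).comp (cf 0 1))

theorem Phi_fst (f : MvPolynomial (Fin 6) K) : (Phi K f).1 = cf 0 0 f := rfl

theorem Phi_snd (f : MvPolynomial (Fin 6) K) :
    (Phi K f).2 = act K T1 (cf 1 0 f) + act K T2 (cf 0 1 f) := rfl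

theorem Phi_X (k : Fin 6) (f : MvPolynomial (Fin 6) K) : Phi K (X k * f) = op K k (Phi K f) := by
  refine Fin.cases ?_ (fun k => ?_) k
  · have h00 : cf 0 0 (X 0 * f) = 0 := by
      ext a; rw [cf_apply, coeff_X0, if_pos rfl]; rfl
    have h10 : cf 1 0 (X 0 * f) = cf 0 0 f := by
      ext a; rw [cf_apply, coeff_X0, if_neg one_ne_zero]; rfl
    have h01 : cf 0 1 (X 0 * f) = 0 := by
      ext a; rw [cf_apply, coeff_X0, if_pos rfl]; rfl
    refine Prod.ext ?_ ?_
    · rw [Phi_fst, h00]; rfl
    · rw [Phi_snd, h10, h01, map_zero, add_zero]; rfl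
  · refine Fin.cases ?_ (fun k => ?_) k
    · have h00 : cf 0 0 (X 1 * f) = 0 := by
        ext a; rw [cf_apply, coeff_X1, if_pos rfl]; rfl
      have h10 : cf 1 0 (X 1 * f) = 0 := by
        ext a; rw [cf_apply, coeff_X1, if_pos rfl]; rfl
      have h01 : cf 0 1 (X 1 * f) = cf 0 0 f := by
        ext a; rw [cf_apply, coeff_X1, if_neg one_ne_zero]; rfl
      refine Prod.ext ?_ ?_
      · change (Phi K (X 1 * f)).1 = _
        rw [Phi_fst, h00]; rfl
      · change (Phi K (X 1 * f)).2 = _
        rw [Phi_snd, h10, h01, map_zero, zero_add]; rfl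
    · have h : ∀ u v, cf u v (X k.succ.succ * f) = up K k (cf u v f) := by
        intro u v
        ext a
        rw [cf_apply, coeff_Xz, up_apply]; rfl
      refine Prod.ext ?_ ?_
      · rw [Phi_fst, h]; rfl
      · rw [Phi_snd, h, h, act_up, act_up, ← map_add]; rfl

/-- The ideal of the counterexample. -/
def I0 (K : Type*) [Field K] : Ideal (MvPolynomial (Fin 6) K) where
  carrier := {f | Phi K f = 0}
  zero_mem' := map_zero _
  add_mem' := fun {f g} hf hg => by
    rw [Set.mem_ofPred_eq] at *
    rw [map_add, hf, hg, add_zero]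
  smul_mem' := fun c => by
    induction c using MvPolynomial.induction_on with
    | C r =>
      intro f hf
      rw [Set.mem_ofPred_eq] at *
      rw [smul_eq_mul, ← MvPolynomial.smul_eq_C_mul, map_smul, hf, smul_zero]
    | add p q hp hq =>
      intro f hf
      rw [Set.mem_ofPred_eq]
      have h1 := hp hf
      have h2 := hq hf
      rw [Set.mem_ofPred_eq] at h1 h2
      rw [add_smul, map_add, h1, h2, add_zero]
    | mul_X p n hp =>
      intro f hf
      have h1 := hp hf
      rw [Set.mem_ofPred_eq] at h1 ⊢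
      rw [smul_eq_mul] at h1 ⊢
      have : p * X n * f = X n * (p * f) := by ring
      rw [this, Phi_X, h1, map_zero]

theorem mem_I0 (f : MvPolynomial (Fin 6) K) : f ∈ I0 K ↔ Phi K f = 0 := Iff.rfl

/-- Elements of `P` of degree `d`. -/
def PD (d : ℕ) (v : (A → K) × (A → K)) : Prop :=
  (∀ a, deg a ≠ d → v.1 a = 0) ∧ (∀ b, deg b + d ≠ 15 → v.2 b = 0)

/-- The projection of `P` to degree `d`. -/
def proj (K : Type*) [Field K] (d : ℕ) : ((A → K) × (A → K)) →+ ((A → K) × (A → K)) where
  toFun v := (fun a => if deg a = d then v.1 a else 0, fun b => if deg b + d = 15 then v.2 b else 0)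
  map_zero' := by
    refine Prod.ext ?_ ?_ <;> ext a <;> simp
  map_add' v w := by
    refine Prod.ext ?_ ?_ <;> ext a <;> simp only [Prod.fst_add, Prod.snd_add, Pi.add_apply] <;>
      split_ifs <;> simp

theorem proj_fst (d : ℕ) (v : (A → K) × (A → K)) (a : A) :
    (proj K d v).1 a = if deg a = d then v.1 a else 0 := rfl

theorem proj_snd (d : ℕ) (v : (A → K) × (A → K)) (b : A) :
    (proj K d v).2 b = if deg b + d = 15 then v.2 b else 0 := rfl

theorem proj_eq {d : ℕ} {v : (A → K) × (A → K)} (h : PD d v) : proj K d v = v := by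
  refine Prod.ext ?_ ?_
  · ext a
    rw [proj_fst]
    split_ifs with h1
    · rfl
    · exact (h.1 a h1).symm
  · ext a
    rw [proj_snd]
    split_ifs with h1
    · rfl
    · exact (h.2 a h1).symm

theorem PD_proj (d : ℕ) (v : (A → K) × (A → K)) : PD d (proj K d v) := by
  refine ⟨fun a ha => ?_, fun b hb => ?_⟩
  · rw [proj_fst, if_neg ha]
  · rw [proj_snd, if_neg hb]

theorem act_proj (T : List Q) (hT : ∀ c ∈ T, qdeg c = 14) (p : A → K) (d : ℕ) (b : A) :
    act K T (fun a => if deg a = d then p a else 0) b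
      = if deg b + (d + 1) = 15 then act K T p b else 0 := by
  rw [act_apply, act_apply]
  split_ifs with h
  · congr 1
    refine List.map_congr_left fun c hc => ?_
    split_ifs with h1 h2
    · rfl
    · exfalso
      apply h2
      have := deg_sub h1
      rw [deg_vec, hT c hc] at this
      omega
    · rfl
  · have : (T.map fun c => if b ≤ vec c then (if deg (vec c - b) = d then p (vec c - b) else 0)
        else (0 : K)) = T.map fun _ => (0 : K) := by
      refine List.map_congr_left fun c hc => ?_
      split_ifs with h1 h2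
      · exfalso
        apply h
        have := deg_sub h1
        rw [deg_vec, hT c hc] at this
        omega
      · rfl
      · rfl
    rw [this]
    simp

theorem op_proj (k : Fin 6) (d : ℕ) (v : (A → K) × (A → K)) :
    proj K (d + 1) (op K k v) = op K k (proj K d v) := by
  refine Fin.cases ?_ (fun k => ?_) k
  · refine Prod.ext ?_ ?_
    · ext a
      rw [proj_fst]
      change (if deg a = d + 1 then (0 : K) else 0) = 0
      simp
    · ext b
      rw [proj_snd]
      exact (act_proj T1 deg_T1 v.1 d b).symm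
  · refine Fin.cases ?_ (fun k => ?_) k
    · refine Prod.ext ?_ ?_
      · ext a
        rw [proj_fst]
        change (if deg a = d + 1 then (0 : K) else 0) = 0
        simp
      · ext b
        rw [proj_snd]
        exact (act_proj T2 deg_T2 v.1 d b).symm
    · refine Prod.ext ?_ ?_
      · ext a
        rw [proj_fst]
        change (if deg a = d + 1 then up K k v.1 a else 0) = up K k (proj K d v).1 a
        rw [up_apply, up_apply, proj_fst]
        by_cases ha : a k = 0
        · rw [if_pos ha, if_pos ha]; simp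
        · rw [if_neg ha, if_neg ha]
          have := congrArg deg (sub_single_add ha)
          rw [deg_add, deg_single] at this
          have h2 : (deg a = d + 1) ↔ (deg (a - e1 k) = d) := by omega
          simp only [h2]
      · ext b
        rw [proj_snd]
        change (if deg b + (d + 1) = 15 then dn K k v.2 b else 0) = dn K k (proj K d v).2 b
        rw [dn_apply, dn_apply, proj_snd]
        have h2 : (deg b + (d + 1) = 15) ↔ (deg (b + e1 k) + d = 15) := by
          rw [deg_add, deg_single]; omega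
        simp only [h2]

theorem cf_comp (f : MvPolynomial (Fin 6) K) (u v d : ℕ) :
    cf u v (homogeneousComponent (u + v + d) f)
      = fun a => if deg a = d then cf u v f a else 0 := by
  ext a
  rw [cf_apply, coeff_homogeneousComponent, degree_E, cf_apply]
  have : (u + v + deg a = u + v + d) ↔ (deg a = d) := by omega
  simp only [this]

theorem Phi_comp (f : MvPolynomial (Fin 6) K) (d : ℕ) :
    Phi K (homogeneousComponent d f) = proj K d (Phi K f) := by
  refine Prod.ext ?_ ?_
  · ext a
    rw [Phi_fst, proj_fst, Phi_fst]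
    have := cf_comp f 0 0 d
    rw [zero_add, zero_add] at this
    rw [this]
  · ext b
    rw [proj_snd, Phi_snd, Phi_snd]
    cases d with
    | zero =>
      have h1 : ∀ u v : ℕ, u + v = 1 → cf u v (homogeneousComponent 0 f) = 0 := by
        intro u v huv
        ext a
        rw [cf_apply, coeff_homogeneousComponent, degree_E, if_neg (by omega)]
        rfl
      rw [h1 1 0 rfl, h1 0 1 rfl, map_zero, map_zero, add_zero]
      have h2 : ∀ (T : List Q), (∀ c ∈ T, qdeg c = 14) → ∀ p : A → K, deg b + 0 = 15 →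
          act K T p b = 0 := by
        intro T hT p hb
        rw [act_apply]
        have : (T.map fun c => if b ≤ vec c then p (vec c - b) else (0 : K))
            = T.map fun _ => (0 : K) := by
          refine List.map_congr_left fun c hc => ?_
          rw [if_neg]
          intro h1
          have := deg_sub h1
          rw [deg_vec, hT c hc] at this
          omega
        rw [this]
        simp
      split_ifs with h
      · rw [Pi.add_apply, h2 T1 deg_T1 _ h, h2 T2 deg_T2 _ h]
        simp
      · rfl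
    | succ d =>
      have h1 := cf_comp f 1 0 d
      have h2 := cf_comp f 0 1 d
      have e1 : 1 + 0 + d = d + 1 := by omega
      have e2 : 0 + 1 + d = d + 1 := by omega
      rw [e1] at h1
      rw [e2] at h2
      rw [h1, h2, Pi.add_apply, act_proj T1 deg_T1, act_proj T2 deg_T2]
      split_ifs
      · rfl
      · simp

theorem I0_homogeneous (f : MvPolynomial (Fin 6) K) (hf : f ∈ I0 K) (d : ℕ) :
    homogeneousComponent d f ∈ I0 K := by
  rw [mem_I0] at *
  rw [Phi_comp, hf, map_zero]

theorem Phi_homogeneous {f : MvPolynomial (Fin 6) K} {d : ℕ} (hf : f.IsHomogeneous d) :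
    proj K d (Phi K f) = Phi K f := by
  rw [← Phi_comp, homogeneousComponent_of_mem ((mem_homogeneousSubmodule _ _).2 hf), if_pos rfl]

/-- The polynomial `x^u y^v p`. -/
def pol (u v d : ℕ) (p : A → K) : MvPolynomial (Fin 6) K :=
  ∑ a ∈ Finset.piAntidiag (Finset.univ : Finset (Fin 4)) d, monomial (E u v a) (p a)

theorem pol_homogeneous (u v d : ℕ) (p : A → K) : (pol u v d p).IsHomogeneous (u + v + d) := by
  refine IsHomogeneous.sum _ _ _ fun a ha => ?_
  rw [Finset.mem_piAntidiag] at ha
  apply isHomogeneous_monomial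
  rw [degree_E]
  have : deg a = d := ha.1
  rw [this]

theorem cf_pol (u v d : ℕ) (p : A → K) (hp : p ∈ Dg K d) (u' v' : ℕ) :
    cf u' v' (pol u v d p) = if u' = u ∧ v' = v then p else 0 := by
  ext a
  rw [cf_apply, pol, coeff_sum]
  simp only [coeff_monomial]
  split_ifs with h
  · obtain ⟨rfl, rfl⟩ := h
    by_cases ha : deg a = d
    · rw [Finset.sum_eq_single a]
      · simp
      · intro b _ hb
        rw [if_neg]
        intro h
        exact hb (E_inj h).2.2
      · intro h
        exfalso
        apply h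
        rw [Finset.mem_piAntidiag]
        exact ⟨ha, fun _ _ => Finset.mem_univ _⟩
    · rw [hp a ha, Finset.sum_eq_zero]
      intro b hb
      rw [Finset.mem_piAntidiag] at hb
      rw [if_neg]
      intro h
      exact ha (by rw [← (E_inj h).2.2]; exact hb.1)
  · rw [Pi.zero_apply, Finset.sum_eq_zero]
    intro b _
    rw [if_neg]
    intro h'
    exact h ⟨(E_inj h').1.symm, (E_inj h').2.1.symm⟩

/-- Elements of `P` of degree at least `7` come from polynomials. -/
theorem lift (d : ℕ) (hd : 7 ≤ d) (v : (A → K) × (A → K)) (hv : PD d v) :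
    ∃ f : MvPolynomial (Fin 6) K, f.IsHomogeneous d ∧ Phi K f = v := by
  obtain ⟨e, rfl⟩ : ∃ e, d = e + 1 := ⟨d - 1, by omega⟩
  obtain ⟨q1, q2, hq1, hq2, hq⟩ : ∃ q1 q2 : A → K, q1 ∈ Dg K e ∧ q2 ∈ Dg K e ∧
      v.2 = act K T1 q1 + act K T2 q2 := by
    by_cases h15 : e + 1 ≤ 15
    · have h1 : v.2 ∈ Dg K (15 - (e + 1)) := fun b hb => hv.2 b (by omega)
      have h2 := mem_W (15 - (e + 1)) (by omega) v.2 h1
      have h3 : 14 - (15 - (e + 1)) = e := by omega
      rw [h3] at h2
      obtain ⟨s, ⟨p, hp, rfl⟩, t, ⟨q, hq, rfl⟩, hs⟩ := Submodule.mem_sup.1 h2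
      exact ⟨p, q, hp, hq, hs.symm⟩
    · refine ⟨0, 0, Submodule.zero_mem _, Submodule.zero_mem _, ?_⟩
      rw [map_zero, map_zero, add_zero]
      ext b
      exact hv.2 b (by omega)
  have hp : v.1 ∈ Dg K (e + 1) := fun a ha => hv.1 a ha
  refine ⟨pol 0 0 (e + 1) v.1 + (pol 1 0 e q1 + pol 0 1 e q2), ?_, ?_⟩
  · refine IsHomogeneous.add ?_ (IsHomogeneous.add ?_ ?_)
    · have := pol_homogeneous 0 0 (e + 1) v.1
      rwa [zero_add, zero_add] at this
    · have := pol_homogeneous 1 0 e q1
      have h : 1 + 0 + e = e + 1 := by omega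
      rwa [h] at this
    · have := pol_homogeneous 0 1 e q2
      have h : 0 + 1 + e = e + 1 := by omega
      rwa [h] at this
  · refine Prod.ext ?_ ?_
    · rw [Phi_fst, map_add, map_add, cf_pol 0 0 (e + 1) v.1 hp, cf_pol 1 0 e q1 hq1,
        cf_pol 0 1 e q2 hq2]
      simp
    · rw [Phi_snd]
      simp only [map_add, cf_pol 0 0 (e + 1) v.1 hp, cf_pol 1 0 e q1 hq1,
        cf_pol 0 1 e q2 hq2, hq]
      simp

end

end Q48.WC
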